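import Pool.Agent.Helper68.ES.St4

/-!
# Project ES, module JCN
-/

set_option autoImplicit false

open MeasureTheory Set Filter Topology
open scoped ENNReal RealInnerProductSpace

namespace Pool.Agent.Helper48.ES

open Pool.Agent.Helper68.ES Pool.Agent.Helper68.EP Pool.Agent.Helper20.RG
open Pool.Agent.Helper20.RL (RQ Rich BM Fml Hit)
open Pool.Agent.Helper68.LM (Pl BB Bd Av HL ft fm DQ)

theorem hJCN : Pool.Agent.Helper68.ES.StJCN := by
  intro P Δ e al R Y β u q i j hSy hu hq hC hj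
  obtain ⟨hj1, hj2, hj3, hj4⟩ := hj
  set p : ℝ := P.p with hp
  have hp1 : 1 < p := P.hs.trans P.hsp
  have hp2 : p < 2 := P.hp
  have hanti : Antitone (Δ.ell (Δ.sl u j)) := antitone_nat_of_succ_le (hSy.mono (Δ.sl u j))
  set x : ℝ := Δ.ell (Δ.sl u j) (2 ^ (q - 2)) with hx
  set y : ℝ := Δ.ell (Δ.sl u j) (2 ^ (q - 5)) with hy
  have hxy : x ≤ y := hanti (Nat.pow_le_pow_right (by norm_num) (by omega))
  have h1 : (2 : ℝ) ^ ((i : ℝ) + β - 1 - u) ≤ x := by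
    have h2 : mb i β / 2 ≤ (2 : ℝ) ^ u * x := hj3
    unfold mb at h2
    have h3 : (2 : ℝ) ^ ((i : ℝ) + β - 1 - u) = (2 : ℝ) ^ ((i : ℤ) + β) / 2 / (2 : ℝ) ^ u := by
      rw [show (i : ℝ) + β - 1 - u = (((i : ℤ) + β : ℤ) : ℝ) - 1 - u by push_cast; ring,
        Real.rpow_sub (by norm_num), Real.rpow_sub (by norm_num), Real.rpow_intCast, Real.rpow_one,
        Real.rpow_natCast]
    rw [h3, div_le_iff₀ (by positivity)]
    linarith
  have h4 : (2 : ℝ) ^ ((q : ℤ) - 2 * (5 : ℕ)) * y ^ p ≤ al := hj4 5 (le_refl 5) (by omega)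
  have h5 : (2 : ℝ) ^ ((q : ℤ) - 2 * (5 : ℕ)) = (2 : ℝ) ^ ((q : ℝ) - 10) := by
    rw [← Real.rpow_intCast]
    congr 1
    push_cast
    ring
  have h6 : (2 : ℝ) ^ (((i : ℝ) + β - 1 - u) * p) ≤ y ^ p := by
    rw [Real.rpow_mul (by norm_num)]
    exact Real.rpow_le_rpow (Real.rpow_nonneg (by norm_num) _) (h1.trans hxy) (by linarith)
  have h7 : (2 : ℝ) ^ ((q : ℝ) - 10 + ((i : ℝ) + β - 1 - u) * p) ≤ al := by
    rw [Real.rpow_add (by norm_num)]
    rw [h5] at h4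
    exact (mul_le_mul_of_nonneg_left h6 (Real.rpow_nonneg (by norm_num) _)).trans h4
  have hal : 0 < al := lt_of_lt_of_le (Real.rpow_pos_of_pos (by norm_num) _) h7
  refine ⟨hal, ?_⟩
  have h8 : (q : ℝ) - 10 + ((i : ℝ) + β - 1 - u) * p ≤ Real.logb 2 al := by
    rw [Real.le_logb_iff_rpow_le (by norm_num) hal]
    exact h7
  have hq1 : (p - 1) * u - 1 + R ≤ (q : ℝ) := by
    have h9 := hC.hq
    have h10 : (q : ℝ) = ((⌊(p - 1) * (u : ℝ)⌋ : ℤ) : ℝ) + R := by exact_mod_cast h9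
    have h11 := Int.lt_floor_add_one ((p - 1) * (u : ℝ))
    linarith
  have hi1 : (u : ℝ) / p - 1 + Y ≤ (i : ℝ) := by
    have h9 := hC.hi
    have h10 : (i : ℝ) = ((⌊(u : ℝ) / p⌋ : ℤ) : ℝ) + Y := by exact_mod_cast h9
    have h11 := Int.lt_floor_add_one ((u : ℝ) / p)
    linarith
  have h12 : ((u : ℝ) / p - 1 + Y + β - 1 - u) * p ≤ ((i : ℝ) + β - 1 - u) * p := by
    refine mul_le_mul_of_nonneg_right ?_ (by linarith)
    linarith
  have h13 : ((u : ℝ) / p - 1 + Y + β - 1 - u) * p = u + p * Y + p * β - 2 * p - p * u := by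
    field_simp
    ring
  rw [h13] at h12
  nlinarith [h12, h8, hq1]

end Pool.Agent.Helper48.ES
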